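import Pool.Agent.TSP94.Final

/-!
# The complexity of TREE t-SPANNER on chordal graphs of bounded diameter

For `t = 3` the problem is in P on the chordal graphs of diameter at most `D`, for every `D`
(and without a bound for the diameter). For every `t ≥ 4` it is NP-complete on the chordal graphs
of diameter at most `D`, for every `D ≥ t` (`t` even) and every `D ≥ t - 1` (`t` odd).
-/

set_option autoImplicit false

namespace Pool.Agent.Results.MP_e5f1f0_lc.Dichotomy

open SimpleGraph

/-- `T` is a tree `t`-spanner of `G`: a spanning tree of `G` with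
`d_T(x, y) ≤ t * d_G(x, y)` for all vertices `x`, `y`. -/
def IsTreeSpanner {V : Type*} (t : ℕ) (G T : SimpleGraph V) : Prop :=
  T ≤ G ∧ T.IsTree ∧ ∀ x y : V, T.dist x y ≤ t * G.dist x y

/-- `G` is chordal: it has no induced cycle of length at least four. -/
def IsChordal {V : Type*} (G : SimpleGraph V) : Prop :=
  ∀ n : ℕ, 4 ≤ n → IsEmpty (cycleGraph n ↪g G)

open Classical in
/-- The code of a graph with vertices `0, ..., N - 1`: the number of vertices in unary, followed by
`false` and by the adjacency matrix, row by row. -/
noncomputable def encodeGraph {N : ℕ} (G : SimpleGraph (Fin N)) : List Bool :=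
  List.replicate N true ++ false ::
    (List.finRange N).flatMap fun i => (List.finRange N).map fun j => decide (G.Adj i j)

/-- The codes of the connected chordal graphs of diameter at most `D` with a tree `t`-spanner
(`D = ⊤`: the diameter is not restricted). -/
def TreeSpannerLang (t : ℕ) (D : ℕ∞) : Set (List Bool) :=
  {w | ∃ (N : ℕ) (G : SimpleGraph (Fin N)), w = encodeGraph G ∧ G.Connected ∧ IsChordal G ∧
    (∀ u v, (G.dist u v : ℕ∞) ≤ D) ∧ ∃ T, IsTreeSpanner t G T}

/-- The function is computed by a Turing machine (a multi-stack machine in the sense of Mathlib)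
in polynomial time. -/
def PolyTime (f : List Bool → List Bool) : Prop :=
  Nonempty (Turing.TM2ComputableInPolyTime (id : List Bool → List Bool)
    (id : List Bool → List Bool) f)

/-- The language is in P. -/
def InP (L : Set (List Bool)) : Prop :=
  ∃ f : List Bool → List Bool, PolyTime f ∧ ∀ w, w ∈ L ↔ f w = [true]

/-- Two words as one word: every letter of `w` is preceded by `true`, and then `false` and the
word `c` follow. -/
def pair (w c : List Bool) : List Bool :=
  (w.flatMap fun b => [true, b]) ++ false :: c

/-- The language is in NP: there are a polynomial time verifier `f` and a polynomial `p` such that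
`w` is in the language iff there is a certificate `c` of length at most `p |w|` for which `f`
accepts the pair `(w, c)`. -/
def InNP (L : Set (List Bool)) : Prop :=
  ∃ (f : List Bool → List Bool) (p : Polynomial ℕ), PolyTime f ∧
    ∀ w, w ∈ L ↔ ∃ c : List Bool, c.length ≤ p.eval w.length ∧ f (pair w c) = [true]

/-- Polynomial time many-one reducibility. -/
def Reduces (L L' : Set (List Bool)) : Prop :=
  ∃ f : List Bool → List Bool, PolyTime f ∧ ∀ w, w ∈ L ↔ f w ∈ L'

/-- The language is NP-complete. -/
def NPComplete (L : Set (List Bool)) : Prop :=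
  InNP L ∧ ∀ L', InNP L' → Reduces L' L

/-- TREE 3-SPANNER is in P on the chordal graphs of diameter at most `D`, for all `D`; for `t ≥ 4`,
TREE `t`-SPANNER is NP-complete on the chordal graphs of diameter at most `D`, for all
`D ≥ 2 * (t / 2)`, that is `D ≥ t` if `t` is even and `D ≥ t - 1` if `t` is odd. -/
theorem result :
    (∀ D : ℕ∞, InP (TreeSpannerLang 3 D)) ∧
    ∀ t : ℕ, 4 ≤ t → ∀ D : ℕ∞, ((2 * (t / 2) : ℕ) : ℕ∞) ≤ D →
      NPComplete (TreeSpannerLang t D) :=
  ⟨Pool.Agent.TSP94.three_inP, fun t ht D hD => Pool.Agent.TSP94.npComplete t D ht hD⟩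

end Pool.Agent.Results.MP_e5f1f0_lc.Dichotomy
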